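import Pool.Agent.Lib.MP_9e9eb1_al.ProofNoH

namespace Pool.Agent.Results.MP_9e9eb1_al.NoHEigenvalue

open Pool.Agent.Lib.MP_9e9eb1_al

/-- For every odd order `m = k + 1 ≥ 3` and every dimension `n ≥ 2` there is a symmetric `B_0`
tensor without H-eigenvalues. -/
theorem result : ∀ k n : ℕ, Even k → 2 ≤ k → 2 ≤ n →
    ∃ A : Tensor (k + 1) n, IsSymmetric A ∧ IsB0 A ∧ ∀ l : ℝ, ¬ IsHEigenvalue A l :=
  NoH.main

end Pool.Agent.Results.MP_9e9eb1_al.NoHEigenvalue
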