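import Pool.Agent.Lib.MP_9e9eb1_al.ProofNonneg

namespace Pool.Agent.Results.MP_9e9eb1_al.Nonneg

open Pool.Agent.Lib.MP_9e9eb1_al

/-- Every H-eigenvalue of a symmetric `B_0` tensor of odd order `m = k + 1 ≥ 3` is
nonnegative. -/
theorem result : ∀ k n : ℕ, Even k → 2 ≤ k → ∀ A : Tensor (k + 1) n,
    IsSymmetric A → IsB0 A → ∀ l : ℝ, IsHEigenvalue A l → 0 ≤ l :=
  Nonneg.main

end Pool.Agent.Results.MP_9e9eb1_al.Nonneg
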